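import Pool.Agent.H8.DS.TarG

/-!
Module ACC of the board ds_modules (MP_81a758_an): from visits near a finite set to accumulation
at one point.
-/

namespace DS

open Set Data

namespace H18ACC

theorem near_mono {C : Type} {ε ε' : ℝ} (h : ε ≤ ε') {P Q : C × ℝ × ℝ} (hn : Near ε P Q) :
    Near ε' P Q :=
  ⟨hn.1, lt_of_lt_of_le hn.2.1 h, lt_of_lt_of_le hn.2.2 h⟩

end H18ACC

theorem pf_ACC (h1 : T_DIR) (h2 : T_DIRB) (h3 : T_TRANS) : T_ACC := by
  intro C S _ X hX t P F hF hP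
  have tr : ∀ {P Q R : C × ℝ × ℝ}, X.Leaf t P Q → X.Leaf t Q R → X.Leaf t P R := by
    rintro P Q R ⟨m, hm⟩ ⟨n, hn⟩
    exact ⟨m * n, h3 C S X t P Q R m n hm hn⟩
  constructor
  · intro H
    by_contra hcon
    have key : ∀ Q ∈ F, ∃ ε > 0, ∃ R, (R = P ∨ X.Leaf t P R) ∧
        ∀ R', X.Leaf t R R' → ¬ Near ε R' Q := by
      intro Q hQ
      by_contra hc
      push Not at hc
      apply hcon
      refine ⟨Q, hQ, ?_⟩
      intro ε hε R hR
      obtain ⟨R', ⟨m, hm⟩, hn⟩ := hc ε hε R hR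
      exact ⟨R', m, hm, hn⟩
    have ind : ∃ R, X.Leaf t P R ∧ ∃ ε > 0, ∀ Q ∈ F, ∀ R', X.Leaf t R R' → ¬ Near ε R' Q := by
      clear hcon H
      induction F, hF using Set.Finite.induction_on with
      | empty =>
        obtain ⟨R, hR, _⟩ := h1 C S X hX t P P P hP (Or.inl rfl) (Or.inl rfl)
        exact ⟨R, hR, 1, one_pos, by simp⟩
      | @insert Q F' _ _ ih =>
        obtain ⟨R, hR, ε, hε, hh⟩ := ih (fun Q' hQ' => key Q' (mem_insert_of_mem _ hQ'))
        obtain ⟨ε', hε', R₁, hR₁, hh₁⟩ := key Q (mem_insert _ _)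
        obtain ⟨R₂, ha, hb⟩ := h1 C S X hX t P R R₁ hP (Or.inr hR) hR₁
        refine ⟨R₂, tr hR ha, min ε ε', lt_min hε hε', ?_⟩
        intro Q' hQ' R' hR'
        rcases mem_insert_iff.1 hQ' with rfl | hQ'
        · exact fun hn => hh₁ R' (tr hb hR') (H18ACC.near_mono (min_le_right _ _) hn)
        · exact fun hn => hh Q' hQ' R' (tr ha hR') (H18ACC.near_mono (min_le_left _ _) hn)
    obtain ⟨R, hR, ε, hε, hh⟩ := ind
    obtain ⟨Q, hQ, R', hR', hn⟩ := H R (Or.inr hR) ε hε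
    exact hh Q hQ R' hR' hn
  · intro H
    by_contra hcon
    have key : ∀ Q ∈ F, ∃ ε > 0, ∃ R, (R = P ∨ X.Leaf t R P) ∧
        ∀ R', X.Leaf t R' R → ¬ Near ε R' Q := by
      intro Q hQ
      by_contra hc
      push Not at hc
      apply hcon
      refine ⟨Q, hQ, ?_⟩
      intro ε hε R hR
      obtain ⟨R', ⟨m, hm⟩, hn⟩ := hc ε hε R hR
      exact ⟨R', m, hm, hn⟩
    have ind : ∃ R, X.Leaf t R P ∧ ∃ ε > 0, ∀ Q ∈ F, ∀ R', X.Leaf t R' R → ¬ Near ε R' Q := by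
      clear hcon H
      induction F, hF using Set.Finite.induction_on with
      | empty =>
        obtain ⟨R, hR, _⟩ := h2 C S X hX t P P P hP (Or.inl rfl) (Or.inl rfl)
        exact ⟨R, hR, 1, one_pos, by simp⟩
      | @insert Q F' _ _ ih =>
        obtain ⟨R, hR, ε, hε, hh⟩ := ih (fun Q' hQ' => key Q' (mem_insert_of_mem _ hQ'))
        obtain ⟨ε', hε', R₁, hR₁, hh₁⟩ := key Q (mem_insert _ _)
        obtain ⟨R₂, ha, hb⟩ := h2 C S X hX t P R R₁ hP (Or.inr hR) hR₁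
        refine ⟨R₂, tr ha hR, min ε ε', lt_min hε hε', ?_⟩
        intro Q' hQ' R' hR'
        rcases mem_insert_iff.1 hQ' with rfl | hQ'
        · exact fun hn => hh₁ R' (tr hR' hb) (H18ACC.near_mono (min_le_right _ _) hn)
        · exact fun hn => hh Q' hQ' R' (tr hR' ha) (H18ACC.near_mono (min_le_left _ _) hn)
    obtain ⟨R, hR, ε, hε, hh⟩ := ind
    obtain ⟨Q, hQ, R', hR', hn⟩ := H R (Or.inr hR) ε hε
    exact hh Q hQ R' hR' hn

end DS
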