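import Pool.Agent.H8.DS.TarA

/-!
Module AE of the board ds_modules (MP_81a758_an): for almost every parameter the images of the
words of some length avoid the break points.
-/

namespace DS

open Set MeasureTheory

namespace H18AE

theorem wal_eq {S B : Type} (F : Fam S B) (t t' : ℝ) (w : List B) :
    (F.sys t).wal w = (F.sys t').wal w := by
  induction w with
  | nil => rfl
  | cons b w ih =>
    show (F.sys t).wal w * F.al b = (F.sys t').wal w * F.al b
    rw [ih]

end H18AE

theorem pf_AE (h1 : T_COUNT) (h2 : T_SMALL) (h3 : T_CAT) (h4 : T_MEAS) (h5 : T_SLOPE) :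
    T_AE := by
  intro S B Q _ _ _ F mw L ρ p r qs qa qb hmw hal hL hρ0 hρ1 hcontr hqa
  rcases isEmpty_or_nonempty B with hB | hB
  · refine Filter.Eventually.of_forall (fun t _ => ⟨1, ?_⟩)
    intro w hw
    cases w with
    | nil => simp at hw
    | cons b w => exact hB.elim b
  obtain ⟨bk, hbk⟩ := Finite.exists_min F.be
  haveI : Nonempty S := ⟨F.src bk⟩
  obtain ⟨smin, hsmin⟩ := Finite.exists_min mw
  obtain ⟨smax, hsmax⟩ := Finite.exists_max mw
  set kap := F.be bk with hkap
  have hkap0 : 0 < kap := F.be_pos bk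
  set mn := mw smin with hmn
  set Mx := mw smax with hMx
  have hmn0 : 0 < mn := hmw smin
  have hMx0 : 0 < Mx := hmw smax
  set N := Nat.card B with hN
  -- the choice of j
  have hten : Filter.Tendsto (fun j : ℕ => ((L : ℝ) * N) * ((j : ℝ) * ρ ^ j)) Filter.atTop
      (nhds (((L : ℝ) * N) * 0)) :=
    (tendsto_self_mul_const_pow_of_lt_one hρ0.le hρ1).const_mul _
  rw [mul_zero] at hten
  obtain ⟨j, hj1, hj2⟩ := ((hten.eventually (gt_mem_nhds one_pos)).and
    (Filter.eventually_ge_atTop 1)).exists
  set m := j * L with hm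
  have hm1 : 1 ≤ m := Nat.mul_pos hj2 hL
  set θ : ℝ := ((m : ℝ) * N) * ρ ^ j with hθ
  have hθ0 : 0 ≤ θ := by positivity
  have hθ1 : θ < 1 := by
    have : θ = ((L : ℝ) * N) * ((j : ℝ) * ρ ^ j) := by
      rw [hθ, hm]; push_cast; ring
    rw [this]; exact hj1
  obtain ⟨E, hE0, hE⟩ := h2 S B F m
  set Bad : Set ℝ := {t | ¬ (t ∈ Ioo p r → ∃ n, (F.sys t).Good
    (fun s => {x | ∃ i, qs i = s ∧ x = qb i - qa i * t}) n)} with hBad
  show volume Bad = 0
  have hnull : volume (Bad \ E) = 0 := by
    apply measure_null_of_locally_null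
    rintro t₀ ⟨ht₀, ht₀E⟩
    have ht₀' : t₀ ∈ Ioo p r := by
      by_contra hc
      exact ht₀ (fun h => absurd h hc)
    obtain ⟨ε, hε, hεw⟩ := hE t₀ ht₀E
    set U : Set ℝ := Ioo (t₀ - ε) (t₀ + ε) ∩ Ioo p r with hU
    have hUo : IsOpen U := isOpen_Ioo.inter isOpen_Ioo
    have ht₀U : t₀ ∈ U := ⟨⟨by linarith, by linarith⟩, ht₀'⟩
    refine ⟨U ∩ (Bad \ E), ?_, ?_⟩
    · rw [inter_comm]
      exact inter_mem_nhdsWithin _ (hUo.mem_nhds ht₀U)
    refine measure_mono_null (t := U ∩ Bad) (inter_subset_inter_right _ diff_subset) ?_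
    -- the words at t₀
    have hVfin : {w : List B | w.length = m ∧ (F.sys t₀).Occ w}.Finite :=
      (List.finite_length_eq B m).subset (fun w hw => hw.1)
    set V : Finset (List B) := hVfin.toFinset with hV
    have hVcard : V.card ≤ m * N := by
      have := h1 S B (F.sys t₀) m hm1
      rwa [Set.ncard_eq_toFinset_card _ hVfin] at this
    have hbound : ∀ k : ℕ, 1 ≤ k → volume (U ∩ Bad) ≤
        ENNReal.ofReal ((Nat.card Q * (Mx / mn / kap)) * θ ^ k) := by
      intro k hk
      obtain ⟨hWfin, hWcard⟩ := h3 S B F m k U V (by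
        intro t ht w hw ho
        rw [hV, Set.Finite.mem_toFinset]
        refine ⟨hw, hεw t ?_ w hw ho⟩
        rw [abs_lt]
        exact ⟨by linarith [ht.1.1], by linarith [ht.1.2]⟩)
      set W : Set (List B) := {w : List B | w.length = k * m ∧ ∃ t ∈ U, (F.sys t).Occ w} with hW
      have hsub : U ∩ Bad ⊆ ⋃ w ∈ W, ⋃ i : Q,
          {t | qb i - qa i * t ∈ Icc ((F.sys t).wc w) ((F.sys t).wc w + (F.sys t).wal w)} := by
        rintro t ⟨htU, htB⟩
        have hng : ¬ (F.sys t).Good (fun s => {x | ∃ i, qs i = s ∧ x = qb i - qa i * t}) (k * m) :=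
          fun hg => htB (fun _ => ⟨_, hg⟩)
        unfold Sys.Good at hng
        push Not at hng
        obtain ⟨w, hw, y, y', hgo, x, ⟨i, hi1, hi2⟩, hx⟩ := hng
        rw [mem_iUnion₂]
        refine ⟨w, ⟨hw, t, htU, y, y', hgo⟩, ?_⟩
        rw [mem_iUnion]
        refine ⟨i, ?_⟩
        rw [hi2] at hx
        exact hx
      set c : ℝ := Mx / mn * ρ ^ (k * j) / kap with hc
      have hc0 : 0 ≤ c := by positivity
      have hone : ∀ w ∈ W, ∀ i : Q, volume
          {t | qb i - qa i * t ∈ Icc ((F.sys t).wc w) ((F.sys t).wc w + (F.sys t).wal w)} ≤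
          ENNReal.ofReal c := by
        rintro w ⟨hw, t, htU, y, y', hgo⟩ i
        have hw0 : w ≠ [] := by
          rintro rfl
          have : 0 < k * m := Nat.mul_pos hk hm1
          simp only [List.length_nil] at hw
          omega
        refine (h4 S B F w kap hw0 hkap0 hbk (qa i) (qb i) t (hqa i)).trans ?_
        apply ENNReal.ofReal_le_ofReal
        rw [hc]
        apply div_le_div_of_nonneg_right _ hkap0.le
        have hs := (h5 S B (F.sys t) mw L ρ hmw hal hρ0.le (hcontr t htU.2)).2 (k * j) w y y'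
          (by rw [hw, hm]; ring) hgo
        have hwp : 0 < (F.sys t).wal w := Sys.wal_pos _ w
        have h6 : (F.sys t).wal w * mn ≤ ρ ^ (k * j) * Mx := by
          calc (F.sys t).wal w * mn ≤ (F.sys t).wal w * mw y'.1 :=
                mul_le_mul_of_nonneg_left (hsmin _) hwp.le
            _ ≤ ρ ^ (k * j) * mw y.1 := hs
            _ ≤ ρ ^ (k * j) * Mx := mul_le_mul_of_nonneg_left (hsmax _) (by positivity)
        rw [div_mul_eq_mul_div, le_div_iff₀ hmn0]
        linarith
      haveI : Fintype Q := Fintype.ofFinite Q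
      calc volume (U ∩ Bad) ≤ volume (⋃ w ∈ W, ⋃ i : Q,
            {t | qb i - qa i * t ∈ Icc ((F.sys t).wc w) ((F.sys t).wc w + (F.sys t).wal w)}) :=
            measure_mono hsub
        _ = volume (⋃ w ∈ hWfin.toFinset, ⋃ i : Q,
            {t | qb i - qa i * t ∈ Icc ((F.sys t).wc w) ((F.sys t).wc w + (F.sys t).wal w)}) := by
            congr 1
            ext t
            simp only [mem_iUnion, Set.Finite.mem_toFinset]
        _ ≤ ∑ w ∈ hWfin.toFinset, volume (⋃ i : Q,
            {t | qb i - qa i * t ∈ Icc ((F.sys t).wc w) ((F.sys t).wc w + (F.sys t).wal w)}) :=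
            measure_biUnion_finset_le _ _
        _ ≤ ∑ w ∈ hWfin.toFinset, (Nat.card Q : ENNReal) * ENNReal.ofReal c := by
            apply Finset.sum_le_sum
            intro w hw
            rw [Set.Finite.mem_toFinset] at hw
            refine (measure_iUnion_fintype_le _ _).trans ?_
            refine (Finset.sum_le_card_nsmul _ _ _ (fun i _ => hone w hw i)).trans ?_
            rw [nsmul_eq_mul, Nat.card_eq_fintype_card, Finset.card_univ]
        _ = (W.ncard : ENNReal) * ((Nat.card Q : ENNReal) * ENNReal.ofReal c) := by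
            rw [Finset.sum_const, nsmul_eq_mul, Set.ncard_eq_toFinset_card _ hWfin]
        _ ≤ (((m * N) ^ k : ℕ) : ENNReal) * ((Nat.card Q : ENNReal) * ENNReal.ofReal c) := by
            gcongr
            exact hWcard.trans (Nat.pow_le_pow_left hVcard k)
        _ = ENNReal.ofReal ((Nat.card Q * (Mx / mn / kap)) * θ ^ k) := by
            rw [← ENNReal.ofReal_natCast, ← ENNReal.ofReal_natCast (Nat.card Q),
              ← ENNReal.ofReal_mul (by positivity), ← ENNReal.ofReal_mul (by positivity)]
            congr 1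
            rw [hc, hθ]
            push_cast
            rw [mul_pow ((m : ℝ) * N), ← pow_mul, mul_comm j k]
            ring
    have hlim : Filter.Tendsto (fun k : ℕ => ENNReal.ofReal
        ((Nat.card Q * (Mx / mn / kap)) * θ ^ k)) Filter.atTop (nhds 0) := by
      have h7 : Filter.Tendsto (fun k : ℕ => (Nat.card Q * (Mx / mn / kap)) * θ ^ k)
          Filter.atTop (nhds ((Nat.card Q * (Mx / mn / kap)) * 0)) :=
        (tendsto_pow_atTop_nhds_zero_of_lt_one hθ0 hθ1).const_mul _
      rw [mul_zero] at h7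
      have h8 := (ENNReal.continuous_ofReal.tendsto 0).comp h7
      rw [ENNReal.ofReal_zero] at h8
      exact h8
    have hle : volume (U ∩ Bad) ≤ 0 :=
      ge_of_tendsto hlim (Filter.eventually_atTop.2 ⟨1, fun k hk => hbound k hk⟩)
    exact le_antisymm hle (zero_le)
  have : Bad ⊆ (Bad \ E) ∪ E := by
    intro t ht
    by_cases h : t ∈ E
    · exact Or.inr h
    · exact Or.inl ⟨ht, h⟩
  exact measure_mono_null this (measure_union_null hnull hE0)

end DS
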